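import Pool.Agent.H47.ALLH.Stmts
import Pool.Agent.H85.STAR.Zero

/-!
# ALLH: rows PADE and ZER
-/

set_option autoImplicit false

namespace Pool.ALLH

open Finset

theorem pade_thm : S_PADE := by
  intro g M n z0 T x m Nt Dt W1 W2 U V hg hz0 hzg hM hMg hn hA hT hN hD hW1 hW2
  have hg0 : 0 < g := hg.pos
  have hP : 2 ≤ M * n := by nlinarith
  have hcop : Nat.Coprime z0 g :=
    ((Nat.Prime.coprime_iff_not_dvd hg).mpr (Nat.not_dvd_of_pos_of_lt hz0 hzg)).symm
  have key := H85STAR.core_thm T g z0 M (4 * n) (3 * (M * n)) (M * n + 2 * M) Nt Dt (W2 : ℤ)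
    (W1 : ℤ) m x hA.pr hg0 hzg.le hcop hM hMg (by nlinarith) (by nlinarith) (by nlinarith)
    hA.N0 hA.D0 hA.ne (by exact_mod_cast hA.W20.ne') (by exact_mod_cast hA.W10.ne') (by
      intro t ht
      refine ⟨fun h => (hT t ht).1 ((Nat.prime_dvd_prime_iff_eq (hA.pr t ht) hg).mp h), hA.tD t ht,
        ?_, (hT t ht).2.1, hA.cN t ht, ?_, ?_, ?_⟩
      · exact fun h => hA.t1 t ht (by exact_mod_cast h)
      · have e : (W2 : ℤ) - W1 = -((W1 : ℤ) - W2) := by ring
        rw [e]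
        exact (dvd_neg).mpr (hA.cW t ht)
      · have e : (W2 : ℤ) ^ g * (Dt : ℤ) ^ z0 - (W1 : ℤ) ^ g * (Nt : ℤ) ^ z0 =
            -((Nt : ℤ) ^ z0 * (W1 : ℤ) ^ g - (Dt : ℤ) ^ z0 * (W2 : ℤ) ^ g) := by ring
        rw [e]
        exact (dvd_neg).mpr (hA.rel t ht)
      · refine (hT t ht).2.2.trans (Nat.mul_le_mul_left _ ?_)
        have h1 : M * n + 2 * M + M * n ≤ 3 * (M * n) := by nlinarith
        omega)
  -- take logarithms
  have hg1 : (1 : ℝ) ≤ g := by exact_mod_cast hg0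
  have hM1 : (1 : ℝ) ≤ M := by exact_mod_cast hM
  have hn2 : (2 : ℝ) ≤ n := by exact_mod_cast hn
  have hlg : 0 ≤ Real.log g := Real.log_nonneg hg1
  have hpos : 0 < ∏ t ∈ T, (t : ℝ) ^ x t :=
    Finset.prod_pos fun t ht => pow_pos (by exact_mod_cast (hA.pr t ht).pos) _
  have hl := Real.log_le_log hpos key
  have hlp : Real.log (∏ t ∈ T, (t : ℝ) ^ x t) = ∑ t ∈ T, (x t : ℝ) * Real.log t := by
    rw [Real.log_prod fun t ht => (pow_pos (by exact_mod_cast (hA.pr t ht).pos) _).ne']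
    exact Finset.sum_congr rfl fun t _ => Real.log_pow _ _
  rw [hlp] at hl
  have hmaxN : 0 < (max (Nt : ℝ) (Dt : ℝ)) := lt_max_of_lt_left (by exact_mod_cast hA.N0)
  have hmaxW : 0 < (max |((W2 : ℤ) : ℝ)| |((W1 : ℤ) : ℝ)|) :=
    lt_max_of_lt_left (abs_pos.mpr (by exact_mod_cast hA.W20.ne'))
  have hMn0 : (0 : ℝ) < (M : ℝ) * ((4 * n : ℕ) + 1) := by positivity
  have hgK : (0 : ℝ) < (g : ℝ) ^ (3 * (M * n)) := by positivity
  have h3K : (0 : ℝ) < (3 : ℝ) ^ (4 * n + M) := by positivity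
  have hlog : ∀ A B D E F : ℝ, 0 < A → 0 < B → 0 < D → 0 < E → 0 < F → ∀ i j k : ℕ,
      Real.log ((A * (B * D)) ^ i * E ^ j * F ^ k) =
        (i : ℝ) * (Real.log A + (Real.log B + Real.log D)) + (j : ℝ) * Real.log E +
          (k : ℝ) * Real.log F := by
    intro A B D E F hA hB hD hE hF i j k
    rw [Real.log_mul (by positivity) (by positivity), Real.log_mul (by positivity) (by positivity),
      Real.log_pow, Real.log_pow, Real.log_pow, Real.log_mul (by positivity) (by positivity),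
      Real.log_mul (by positivity) (by positivity)]
  rw [hlog _ _ _ _ _ hMn0 hgK h3K hmaxN hmaxW, Real.log_pow, Real.log_pow] at hl
  have hU : Real.log (max (Nt : ℝ) (Dt : ℝ)) ≤ U := by
    rw [Real.log_le_iff_le_exp hmaxN]
    exact max_le hN hD
  have hV : Real.log (max |((W2 : ℤ) : ℝ)| |((W1 : ℤ) : ℝ)|) ≤ V := by
    rw [Real.log_le_iff_le_exp hmaxW]
    refine max_le ?_ ?_
    · rw [abs_of_nonneg (by positivity)]
      exact_mod_cast hW2
    · rw [abs_of_nonneg (by positivity)]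
      exact_mod_cast hW1
  have h6g : Real.log (6 * g) = Real.log 6 + Real.log g :=
    Real.log_mul (by norm_num) (by positivity)
  have h6 : Real.log 6 = Real.log 2 + Real.log 3 := by
    rw [← Real.log_mul (by norm_num) (by norm_num)]; norm_num
  have hl2 : 0 < Real.log 2 := Real.log_pos (by norm_num)
  have hl3 : 0 < Real.log 3 := Real.log_pos (by norm_num)
  have h32 : Real.log 3 ≤ 2 * Real.log 2 := by
    have : Real.log 3 ≤ Real.log (2 ^ 2) := Real.log_le_log (by norm_num) (by norm_num)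
    rwa [Real.log_pow] at this
  have hPr : (2 : ℝ) ≤ (M : ℝ) * n := by exact_mod_cast hP
  -- `M (4 n + 1) ≤ 6 ^ (M n)`
  have hA1 : Real.log ((M : ℝ) * ((4 * n : ℕ) + 1)) ≤ (M : ℝ) * n * Real.log 6 := by
    have h1 : M * (4 * n + 1) ≤ 6 ^ (M * n) := by
      have h2 : ∀ k : ℕ, 1 ≤ k → 5 * k ≤ 6 ^ k := by
        intro k hk
        induction k, hk using Nat.le_induction with
        | base => norm_num
        | succ k hk ih => rw [pow_succ]; omega
      have h3 : M * (4 * n + 1) ≤ 5 * (M * n) := by nlinarith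
      exact h3.trans (h2 _ (by omega))
    have h4 : ((M : ℝ) * ((4 * n : ℕ) + 1)) ≤ (6 : ℝ) ^ (M * n) := by exact_mod_cast h1
    have h5 := Real.log_le_log hMn0 h4
    rw [Real.log_pow] at h5
    push_cast at h5 ⊢
    exact h5
  have hB : ((4 * n + M : ℕ) : ℝ) * Real.log 3 ≤ 4 * ((M : ℝ) * n) * Real.log 6 := by
    have h1 : ((4 * n + M : ℕ) : ℝ) ≤ 4 * ((M : ℝ) * n) + 1 := by
      push_cast
      nlinarith
    have h2 := mul_le_mul_of_nonneg_right h1 hl3.le
    rw [h6]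
    nlinarith
  have hC : ((3 * (M * n) : ℕ) : ℝ) * Real.log g ≤ 3 * ((M : ℝ) * n) * Real.log g := by
    push_cast
    exact le_rfl
  have hD' : ((4 * n : ℕ) : ℝ) * Real.log (max (Nt : ℝ) (Dt : ℝ)) ≤ 4 * n * U := by
    push_cast
    exact mul_le_mul_of_nonneg_left hU (by positivity)
  have hE : (M : ℝ) * Real.log (max |((W2 : ℤ) : ℝ)| |((W1 : ℤ) : ℝ)|) ≤ M * V :=
    mul_le_mul_of_nonneg_left hV (by positivity)
  have hF : 0 ≤ (M : ℝ) * n * Real.log g := by positivity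
  rw [h6g]
  refine hl.trans ?_
  have h4 : ((4 : ℕ) : ℝ) = 4 := by norm_num
  rw [h4]
  nlinarith

theorem zer_thm : S_ZER := by
  intro g T x m Nt Dt W1 W2 V hg hA hT hne hW1 hW2
  -- `t ^ x t ∣ W1 - W2`
  have hdv : ∀ t ∈ T, (t : ℤ) ^ x t ∣ (W1 : ℤ) - W2 := by
    intro t ht
    have hp := hA.pr t ht
    have h1 := hA.rel t ht
    simp only [pow_zero, one_mul] at h1
    have h2 := hA.cW t ht
    -- `W1 ^ g - W2 ^ g = (W1 - W2) * S`, `S ≡ g W2 ^ (g - 1)`
    have h3 := (Commute.all (W1 : ℤ) (W2 : ℤ)).mul_geom_sum₂ g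
    rw [← h3] at h1
    refine (IsCoprime.pow_left (m := x t) ?_).dvd_of_dvd_mul_right h1
    refine (Prime.coprime_iff_not_dvd (Nat.prime_iff_prime_int.mp hp)).mpr ?_
    intro hdvd
    have h4 : (t : ℤ) ∣ (g : ℤ) * (W2 : ℤ) ^ (g - 1) := by
      have h5 : (t : ℤ) ∣ (∑ i ∈ range g, (W1 : ℤ) ^ i * (W2 : ℤ) ^ (g - 1 - i)) -
          (g : ℤ) * (W2 : ℤ) ^ (g - 1) := by
        have h6 : (g : ℤ) * (W2 : ℤ) ^ (g - 1) =
            ∑ i ∈ range g, (W2 : ℤ) ^ i * (W2 : ℤ) ^ (g - 1 - i) := by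
          rw [Finset.sum_congr rfl (g := fun _ => (W2 : ℤ) ^ (g - 1))]
          · rw [Finset.sum_const, Finset.card_range, nsmul_eq_mul]
          · intro i hi
            rw [← pow_add]
            congr 1
            have := Finset.mem_range.mp hi
            omega
        rw [h6, ← Finset.sum_sub_distrib]
        refine Finset.dvd_sum fun i _ => ?_
        rw [← sub_mul]
        exact dvd_mul_of_dvd_left (h2.trans (sub_dvd_pow_sub_pow _ _ i)) _
      have h7 := dvd_sub hdvd h5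
      rwa [sub_sub_cancel] at h7
    rcases (Nat.prime_iff_prime_int.mp hp).dvd_or_dvd h4 with h | h
    · exact hT t ht ((Nat.prime_dvd_prime_iff_eq hp hg).mp (by exact_mod_cast h))
    · exact hA.t2 t ht (by exact_mod_cast (Nat.prime_iff_prime_int.mp hp).dvd_of_dvd_pow h)
  have hprod : (∏ t ∈ T, (t : ℤ) ^ x t) ∣ (W1 : ℤ) - W2 := by
    refine Finset.prod_dvd_of_coprime ?_ hdv
    intro s hs t ht hst
    refine IsCoprime.pow ?_
    rw [Nat.isCoprime_iff_coprime]
    exact (Nat.coprime_primes (hA.pr s hs) (hA.pr t ht)).mpr hst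
  have hne' : (W1 : ℤ) - W2 ≠ 0 := sub_ne_zero.mpr (by exact_mod_cast hne)
  have hle := Int.le_of_dvd (abs_pos.mpr hne') ((dvd_abs _ _).mpr hprod)
  have hle' : (∏ t ∈ T, (t : ℝ) ^ x t) ≤ Real.exp V := by
    have h1 : (∏ t ∈ T, (t : ℝ) ^ x t) ≤ |(W1 : ℝ) - W2| := by exact_mod_cast hle
    refine h1.trans ?_
    have hw1 : (0 : ℝ) < W1 := by exact_mod_cast hA.W10
    have hw2 : (0 : ℝ) < W2 := by exact_mod_cast hA.W20
    rw [abs_le]
    constructor <;> linarith
  have hpos : 0 < ∏ t ∈ T, (t : ℝ) ^ x t :=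
    Finset.prod_pos fun t ht => pow_pos (by exact_mod_cast (hA.pr t ht).pos) _
  have hl := Real.log_le_log hpos hle'
  rw [Real.log_exp, Real.log_prod fun t ht =>
    (pow_pos (by exact_mod_cast (hA.pr t ht).pos) _).ne'] at hl
  refine le_trans (le_of_eq ?_) hl
  exact Finset.sum_congr rfl fun t _ => (Real.log_pow _ _).symm

end Pool.ALLH
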